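import Mathlib

set_option autoImplicit false
set_option maxHeartbeats 400000

open Filter Topology Real

namespace Pool.Agent.Results.MP_55c50e_an.NotComplete

/-- membership in the sequence space of exponent `p` -/
def L (p : ℝ) (x : ℕ → ℝ) : Prop := Summable fun j => |x j| ^ p

/-- order convergence of a sequence in the lattice of exponent `p` -/
def OC (p : ℝ) (d : ℕ → ℕ → ℝ) (x : ℕ → ℝ) : Prop :=
  ∃ z : ℕ → ℕ → ℝ, (∀ m, L p (z m) ∧ 0 ≤ z m) ∧ Antitone z ∧
    (∀ w, L p w → (∀ m, w ≤ z m) → w ≤ 0) ∧ ∀ m, ∃ N, ∀ k ≥ N, |d k - x| ≤ z m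

/-- Buo-Cauchy sequences -/
def BuoCauchy (p : ℝ) (x : ℕ → ℕ → ℝ) : Prop :=
  ∀ n : ℕ → ℕ, StrictMono n → OC p (fun k => x (n (k + 1)) - x (n k)) 0

noncomputable def φ (u : ℝ) : ℝ := max 0 (1 - |u|)

theorem φ0 (u : ℝ) : 0 ≤ φ u := le_max_left _ _
theorem φ1 (u : ℝ) : φ u ≤ 1 := max_le zero_le_one (by linarith [abs_nonneg u])
theorem φl (u v : ℝ) : |φ u - φ v| ≤ min 1 |u - v| := by
  refine le_min (abs_le.2 ⟨by linarith [φ0 u, φ1 v], by linarith [φ0 v, φ1 u]⟩) ?_
  refine (abs_max_sub_max_le_max _ _ _ _).trans (max_le (by simp) ?_)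
  rw [show 1 - |u| - (1 - |v|) = -(|u| - |v|) by ring, abs_neg]; exact abs_abs_sub_abs_le_abs_sub u v

theorem φz (u : ℝ) (i : ℕ) (h : i ∉ ({⌊u⌋₊, ⌊u⌋₊ + 1} : Finset ℕ)) : φ (u - i) = 0 := by
  simp only [Finset.mem_insert, Finset.mem_singleton, not_or] at h
  refine max_eq_left (sub_nonpos.2 (le_abs.2 ?_))
  rcases lt_or_gt_of_ne h.1 with h1 | h1
  · have : i + 1 ≤ ⌊u⌋₊ := h1
    have := (Nat.le_floor_iff' (by omega)).1 this
    push_cast at this; left; linarith
  · have : ⌊u⌋₊ + 1 + 1 ≤ i := by omega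
    have : ((⌊u⌋₊ + 1 + 1 : ℕ) : ℝ) ≤ i := by exact_mod_cast this
    have := Nat.lt_floor_add_one u
    push_cast at *; right; linarith

variable {p : ℝ}

theorem row (hp : 1 < p) (u v : ℝ) : Summable (fun i : ℕ => |φ (u - i) - φ (v - i)| ^ p) ∧
    ∑' i : ℕ, |φ (u - i) - φ (v - i)| ^ p ≤ 4 * (min 1 |u - v|) ^ p := by
  have z : ∀ i ∉ ({⌊u⌋₊, ⌊u⌋₊ + 1} ∪ {⌊v⌋₊, ⌊v⌋₊ + 1} : Finset ℕ),
      |φ (u - i) - φ (v - i)| ^ p = 0 := fun i hi => by
    rw [Finset.mem_union, not_or] at hi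
    rw [φz u i hi.1, φz v i hi.2]; simp; rw [zero_rpow (by linarith)]
  refine ⟨summable_of_ne_finset_zero z, ?_⟩
  rw [tsum_eq_sum z]
  refine (Finset.sum_le_card_nsmul _ _ ((min 1 |u - v|) ^ p) fun i _ => ?_).trans ?_
  · refine rpow_le_rpow (abs_nonneg _) ?_ (by linarith)
    simpa using φl (u - i) (v - i)
  · rw [nsmul_eq_mul]
    refine mul_le_mul_of_nonneg_right ?_ (by positivity)
    have := (Finset.card_union_le {⌊u⌋₊, ⌊u⌋₊ + 1} {⌊v⌋₊, ⌊v⌋₊ + 1}).trans
      (add_le_add Finset.card_le_two Finset.card_le_two)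
    exact_mod_cast this

theorem sc (hp : 1 < p) : ∃ C, ∀ g : ℝ, 0 ≤ g →
    Summable (fun l : ℕ => (1 / 2 : ℝ) ^ l * (min 1 (2 ^ l * g)) ^ p) ∧
    ∑' l : ℕ, (1 / 2 : ℝ) ^ l * (min 1 (2 ^ l * g)) ^ p ≤ C * g := by
  set ρ : ℝ := (1 / 2) ^ (p - 1) with hρ
  have r0 : 0 < ρ := by positivity
  have r1 : ρ < 1 := rpow_lt_one (by norm_num) (by norm_num) (by linarith)
  refine ⟨(1 - ρ)⁻¹ + 2, fun g hg => ?_⟩
  have b : ∀ l : ℕ, (1 / 2 : ℝ) ^ l * (min 1 (2 ^ l * g)) ^ p ≤ (1 / 2) ^ l := fun l =>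
    mul_le_of_le_one_right (by positivity) (rpow_le_one (by positivity) (min_le_left _ _) (by linarith))
  have s := Summable.of_nonneg_of_le (fun l => by positivity) b summable_geometric_two
  refine ⟨s, ?_⟩
  rcases hg.eq_or_lt with rfl | hg
  · simp [zero_rpow (show p ≠ 0 by linarith)]
  have ex : ∃ a : ℕ, 1 ≤ 2 ^ a * g := by
    obtain ⟨a, ha⟩ := pow_unbounded_of_one_lt (1 / g) (one_lt_two (α := ℝ))
    exact ⟨a, by rw [div_lt_iff₀ hg] at ha; exact ha.le⟩
  classical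
  have a1 := Nat.find_spec ex
  have a2 : ∀ l < Nat.find ex, 2 ^ l * g < 1 := fun l hl => not_le.1 (Nat.find_min ex hl)
  generalize Nat.find ex = a at *
  rw [← s.sum_add_tsum_nat_add a, add_mul]
  refine add_le_add ?_ ?_
  · rw [← Finset.sum_range_reflect, ← tsum_geometric_of_lt_one r0.le r1, ← tsum_mul_right]
    refine le_trans (Finset.sum_le_sum fun j hj => ?_)
      (((summable_geometric_of_lt_one r0.le r1).mul_right g).sum_le_tsum (Finset.range a)
        fun _ _ => by positivity)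
    obtain ⟨l, rfl⟩ : ∃ l, a = l + 1 + j := ⟨a - (1 + j), by simp at hj; omega⟩
    rw [show l + 1 + j - 1 - j = l by omega]
    have h := a2 (l + j) (by omega)
    have h' : 2 ^ l * g ≤ (1 / 2) ^ j := by
      rw [one_div, inv_pow, ← one_div, le_div_iff₀ (by positivity)]
      rw [pow_add] at h; linarith
    have u0 : 0 < 2 ^ l * g := by positivity
    calc _ ≤ (1 / 2 : ℝ) ^ l * (2 ^ l * g) ^ p := by gcongr; exact min_le_right _ _
      _ = (2 ^ l * g) ^ (p - 1) * g := by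
        rw [rpow_sub_one u0.ne', one_div, inv_pow]; field_simp
      _ ≤ ((1 / 2) ^ j) ^ (p - 1) * g := by gcongr
      _ = _ := by rw [hρ, ← rpow_natCast, ← rpow_mul (by norm_num), mul_comm (j : ℝ),
        rpow_mul (by norm_num), rpow_natCast]
  · refine ((summable_nat_add_iff a).2 s).tsum_le_tsum (g := fun l : ℕ => (1 / 2 : ℝ) ^ l * g)
      (fun l => (b _).trans ?_) (summable_geometric_two.mul_right g) |>.trans ?_
    · rw [pow_add]; gcongr
      rw [one_div, inv_pow, ← one_div, div_le_iff₀ (by positivity)]; linarith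
    · rw [tsum_mul_right, tsum_geometric_two]

theorem ps (f : ℕ → ℕ → ℝ) (b : ℕ → ℝ) (h0 : ∀ a i, 0 ≤ f a i) (h1 : ∀ a, Summable (f a))
    (h2 : ∀ a, ∑' i, f a i ≤ b a) (hb : Summable b) :
    Summable (fun q : ℕ × ℕ => f q.1 q.2) ∧ ∑' q : ℕ × ℕ, f q.1 q.2 ≤ ∑' a, b a := by
  have s2 := Summable.of_nonneg_of_le (fun a => tsum_nonneg (h0 a)) h2 hb
  have s1 : Summable fun q : ℕ × ℕ => f q.1 q.2 :=
    (summable_prod_of_nonneg fun q => h0 _ _).2 ⟨h1, s2⟩
  refine ⟨s1, ?_⟩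
  rw [s1.tsum_prod]
  exact s2.tsum_le_tsum h2 hb

noncomputable def γ (p t : ℝ) (q : ℕ × ℕ) : ℝ := ((1 / 2) ^ q.1) ^ p⁻¹ * φ (2 ^ q.1 * t - q.2)

theorem hol (hp : 1 < p) : ∃ C, ∀ s t : ℝ, Summable (fun q => |γ p t q - γ p s q| ^ p) ∧
    ∑' q, |γ p t q - γ p s q| ^ p ≤ C * |t - s| := by
  obtain ⟨C, hC⟩ := sc hp
  refine ⟨4 * C, fun s t => ?_⟩
  obtain ⟨c1, c2⟩ := hC _ (abs_nonneg (t - s))
  have e : ∀ q, |γ p t q - γ p s q| ^ p =
      (1 / 2) ^ q.1 * |φ (2 ^ q.1 * t - q.2) - φ (2 ^ q.1 * s - q.2)| ^ p := fun q => by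
    rw [γ, γ, ← mul_sub, abs_mul, mul_rpow (abs_nonneg _) (abs_nonneg _),
      abs_of_nonneg (by positivity), rpow_inv_rpow (by positivity) (by linarith)]
  simp only [e]
  have b : ∀ l : ℕ, ∑' i : ℕ, (1 / 2 : ℝ) ^ l * |φ (2 ^ l * t - i) - φ (2 ^ l * s - i)| ^ p ≤
      4 * ((1 / 2) ^ l * (min 1 (2 ^ l * |t - s|)) ^ p) := fun l => by
    rw [tsum_mul_left, mul_left_comm]
    have := (row hp (2 ^ l * t) (2 ^ l * s)).2
    rw [← mul_sub, abs_mul, abs_of_pos (a := (2 : ℝ) ^ l) (by positivity)] at this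
    gcongr
  obtain ⟨s1, s2⟩ := ps (fun l i => (1 / 2 : ℝ) ^ l * |φ (2 ^ l * t - i) - φ (2 ^ l * s - i)| ^ p) _
    (fun _ _ => by positivity) (fun l => (row hp _ _).1.mul_left _) b (c1.mul_left 4)
  refine ⟨s1, s2.trans ?_⟩
  rw [tsum_mul_left]; linarith

noncomputable def r (n : ℕ) : ℝ := 1 / log (n + 3)

theorem lg (n : ℕ) : 1 ≤ log (n + 3) := by
  rw [le_log_iff_exp_le (by positivity)]
  have := exp_one_lt_d9; have : (0 : ℝ) ≤ n := n.cast_nonneg; linarith

theorem r0 (n : ℕ) : 0 < r n := by have := lg n; unfold r; positivity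

theorem ra : Antitone r := fun a b h => by
  have := lg a; have : (a : ℝ) ≤ b := by exact_mod_cast h
  unfold r; gcongr

theorem rd (n : ℕ) : r n - r (n + 1) ≤ 1 / (n + 3) := by
  have a := lg n; have b := lg (n + 1)
  have c := log_le_sub_one_of_pos (x := ((n + 1 : ℕ) + 3 : ℝ) / (n + 3)) (by positivity)
  rw [log_div (by positivity) (by positivity),
    show ((n + 1 : ℕ) + 3 : ℝ) / (n + 3) - 1 = 1 / (n + 3) by push_cast; field_simp; ring] at c
  have : (0 : ℝ) < 1 / (n + 3) := by positivity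
  rw [r, r, div_sub_div _ _ (by linarith) (by linarith), div_le_iff₀ (by positivity)]
  nlinarith [mul_le_mul a b zero_le_one (by linarith)]

theorem rt : Tendsto r atTop (𝓝 0) := tendsto_const_nhds.div_atTop (tendsto_log_atTop.comp
  (tendsto_atTop_add_const_right _ _ tendsto_natCast_atTop_atTop))

theorem near (N : ℕ) (u : ℝ) (h0 : 0 < u) (h1 : u ≤ r N) : ∃ n ≥ N, |r n - u| ≤ 1 / (N + 3) := by
  have ex : ∃ k, r (N + k + 1) < u := by
    obtain ⟨k, hk⟩ := (rt.eventually (gt_mem_nhds h0)).exists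
    exact ⟨k, (ra (by omega)).trans_lt hk⟩
  classical
  have a := Nat.find_spec ex
  have b : u ≤ r (N + Nat.find ex) := by
    rcases h : Nat.find ex with _ | k
    · exact h1
    · exact not_lt.1 (Nat.find_min ex (m := k) (by omega))
  generalize Nat.find ex = k at *
  refine ⟨N + k, by omega, ?_⟩
  have := rd (N + k)
  have c : (1 : ℝ) / ((N + k : ℕ) + 3) ≤ 1 / (N + 3) := by gcongr; omega
  rw [abs_of_nonneg (by linarith)]; linarith

theorem rl (l : ℕ) : 1 / ((l : ℝ) + 3) ≤ r (2 ^ (l + 1)) := by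
  have := lg (2 ^ (l + 1))
  unfold r; gcongr
  calc _ ≤ log (2 ^ (l + 3)) := by
        gcongr; push_cast
        have : (1 : ℝ) ≤ 2 ^ l := one_le_pow₀ one_le_two
        rw [pow_add, pow_add]; linarith
    _ ≤ _ := by
        rw [log_pow]; push_cast
        have := log_two_lt_d9; have : (0 : ℝ) ≤ l := l.cast_nonneg; nlinarith

theorem unb (hp : 1 < p) (y : ℕ × ℕ → ℝ) (hy : Summable fun q => |y q| ^ p) (N : ℕ)
    (h : ∀ n ≥ N, ∀ q, γ p (r n) q ≤ y q) : False := by
  obtain ⟨s1, s2⟩ := (summable_prod_of_nonneg fun q => by positivity).1 hy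
  have key : ∀ l ≥ N, 1 / ((l : ℝ) + 3) ≤ 2 ^ p * ∑' i, |y (l, i)| ^ p + (1 / 2) ^ l := by
    intro l hl
    have pp : (0 : ℝ) < 2 ^ l := by positivity
    have m1 := Nat.lt_floor_add_one (2 ^ l * r (2 ^ (l + 1)))
    have m2 := Nat.floor_le (mul_pos pp (r0 (2 ^ (l + 1)))).le
    generalize ⌊2 ^ l * r (2 ^ (l + 1))⌋₊ = m at *
    have a : ∀ i ∈ Finset.Icc 1 m, (1 / 2 : ℝ) ^ l / 2 ^ p ≤ |y (l, i)| ^ p := fun i hi => by
      rw [Finset.mem_Icc] at hi
      have i1 : (1 : ℝ) ≤ i := by exact_mod_cast hi.1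
      have i2 : (i : ℝ) ≤ m := by exact_mod_cast hi.2
      obtain ⟨n, hn, e⟩ := near (2 ^ (l + 1)) (i / 2 ^ l) (by positivity)
        (by rw [div_le_iff₀ pp]; linarith)
      have := h n (by have := @Nat.lt_two_pow_self (l + 1); omega) (l, i)
      have f : 1 / 2 ≤ φ (2 ^ l * r n - i) := by
        refine le_max_of_le_right ?_
        rw [show 2 ^ l * r n - i = 2 ^ l * (r n - i / 2 ^ l) by field_simp, abs_mul, abs_of_pos pp]
        have : 2 ^ l * |r n - i / 2 ^ l| ≤ 2 ^ l * (1 / ((2 ^ (l + 1) : ℕ) + 3 : ℝ)) := by gcongr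
        have : 2 ^ l * (1 / ((2 ^ (l + 1) : ℕ) + 3 : ℝ)) ≤ 1 / 2 := by
          push_cast; rw [mul_one_div, div_le_iff₀ (by positivity), pow_succ]; linarith
        linarith
      calc _ = (((1 / 2 : ℝ) ^ l) ^ p⁻¹ * (1 / 2)) ^ p := by
            rw [mul_rpow (by positivity) (by positivity), rpow_inv_rpow (by positivity) (by linarith),
              one_div (2 : ℝ), inv_rpow (by norm_num), div_eq_mul_inv]
        _ ≤ _ := by
            gcongr
            refine le_trans ?_ (this.trans (le_abs_self _))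
            unfold γ; gcongr
    have b := (Finset.card_nsmul_le_sum _ _ _ a).trans
      ((s1 l).sum_le_tsum (Finset.Icc 1 m) fun _ _ => by positivity)
    rw [Nat.card_Icc, nsmul_eq_mul, add_tsub_cancel_right, ← mul_div_assoc,
      div_le_iff₀ (by positivity)] at b
    have c := rl l
    have d : (1 / 2 : ℝ) ^ l * 2 ^ l = 1 := by rw [← mul_pow]; norm_num
    have : (0 : ℝ) < (1 / 2) ^ l := by positivity
    calc _ ≤ (1 / 2 : ℝ) ^ l * (2 ^ l * r (2 ^ (l + 1))) := by rw [← mul_assoc, d, one_mul]; exact c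
      _ ≤ (1 / 2 : ℝ) ^ l * (m + 1) := by gcongr
      _ ≤ _ := by linarith
  have t := (summable_nat_add_iff N).2 ((s2.mul_left (2 ^ p)).add summable_geometric_two)
  have t2 := Summable.of_nonneg_of_le (fun l => by positivity) (fun l => key (l + N) (by omega)) t
  refine not_summable_one_div_natCast ((summable_nat_add_iff (N + 3)).1 (t2.congr fun l => ?_))
  push_cast; rw [add_assoc]

theorem oc (hp : 1 < p) (d : ℕ → ℕ → ℝ) (h : Summable fun q : ℕ × ℕ => |d q.2 q.1| ^ p) :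
    OC p d 0 := by
  obtain ⟨s1, s2⟩ := (summable_prod_of_nonneg fun q => by positivity).1 h
  have p0 : p ≠ 0 := by linarith
  let T : ℕ → ℕ → ℝ := fun m j => ∑' k, |d (k + m) j| ^ p
  have T0 : ∀ m j, 0 ≤ T m j := fun m j => tsum_nonneg fun k => by positivity
  have sm : ∀ m j, Summable fun k => |d (k + m) j| ^ p := fun m j =>
    (summable_nat_add_iff m).2 (s1 j)
  have Ta : ∀ j, Antitone fun m => T m j := fun j => antitone_nat_of_succ_le fun m => by
    have := (sm m j).tsum_eq_zero_add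
    simp only [T, ← add_assoc, add_right_comm _ m 1]
    rw [this]; exact le_add_of_nonneg_left (by positivity)
  refine ⟨fun m j => T m j ^ p⁻¹, fun m => ⟨?_, fun j => rpow_nonneg (T0 m j) _⟩, ?_, ?_, ?_⟩
  · refine .of_nonneg_of_le (fun j => by positivity) (fun j => ?_) s2
    rw [abs_of_nonneg (rpow_nonneg (T0 m j) _), rpow_inv_rpow (T0 m j) p0]
    simpa [T] using Ta j (Nat.zero_le m)
  · exact fun a b hab j => rpow_le_rpow (T0 _ _) (Ta j hab) (by positivity)
  · intro w _ hw j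
    have := (tendsto_sum_nat_add fun k => |d k j| ^ p).rpow_const (p := p⁻¹) (.inr (by positivity))
    rw [zero_rpow (inv_ne_zero p0)] at this
    exact ge_of_tendsto' this fun m => hw m j
  · refine fun m => ⟨m, fun k hk j => ?_⟩
    obtain ⟨k, rfl⟩ : ∃ k', k = k' + m := ⟨k - m, by omega⟩
    simp only [sub_zero, Pi.abs_apply]
    rw [← rpow_rpow_inv (abs_nonneg (d (k + m) j)) p0]
    exact rpow_le_rpow (by positivity) ((sm m j).le_tsum k fun _ _ => by positivity) (by positivity)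

theorem result (p : ℝ) (hp : 1 < p) : ∃ x : ℕ → ℕ → ℝ, (∀ n, L p (x n)) ∧ BuoCauchy p x ∧
    ¬∃ y, L p y ∧ OC p x y := by
  obtain ⟨C, hC⟩ := hol hp
  let e := Nat.pairEquiv.symm
  refine ⟨fun n j => γ p (r n) (e j), fun n => ?_, fun n hn => oc hp _ ?_, ?_⟩
  · refine (e.summable_iff.2 (hC (-1) (r n)).1).congr fun j => ?_
    have : γ p (-1) (e j) = 0 := by
      refine mul_eq_zero_of_right _ (max_eq_left (sub_nonpos.2 (le_abs.2 (.inr ?_))))
      have : (1 : ℝ) ≤ 2 ^ (e j).1 := one_le_pow₀ one_le_two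
      have : (0 : ℝ) ≤ (e j).2 := Nat.cast_nonneg _
      linarith
    simp [this]
  · refine (ps (fun k j => |γ p (r (n (k + 1))) (e j) - γ p (r (n k)) (e j)| ^ p)
      (fun k => C * |r (n (k + 1)) - r (n k)|) (fun _ _ => by positivity)
      (fun k => (e.summable_iff (f := fun q => |γ p (r (n (k + 1))) q - γ p (r (n k)) q| ^ p)).2
        (hC _ _).1)
      (fun k => (e.tsum_eq fun q => |γ p (r (n (k + 1))) q - γ p (r (n k)) q| ^ p).trans_le
        (hC _ _).2) (Summable.mul_left C ?_)).1.prod_symm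
    refine summable_of_sum_range_le (c := r (n 0)) (fun _ => abs_nonneg _) fun K => ?_
    rw [Finset.sum_congr rfl fun k _ => abs_of_nonpos (sub_nonpos.2 (ra (hn k.lt_succ_self).le))]
    simp only [neg_sub]
    rw [Finset.sum_range_sub' fun k => r (n k)]; linarith [r0 (n K)]
  · rintro ⟨y, hy, z, hz, -, -, h⟩
    obtain ⟨N, hN⟩ := h 0
    refine unb hp (fun q => y (e.symm q) + z 0 (e.symm q)) ?_ N fun n hn q => ?_
    · refine (e.symm.summable_iff (f := fun j => |y j + z 0 j| ^ p)).2 ?_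
      refine .of_nonneg_of_le (fun j => by positivity) (fun j => ?_) ((hy.add (hz 0).1).mul_left (2 ^ p))
      calc _ ≤ (2 * max |y j| |z 0 j|) ^ p := by
            gcongr
            linarith [abs_add_le (y j) (z 0 j), le_max_left |y j| |z 0 j|, le_max_right |y j| |z 0 j|]
        _ ≤ _ := by
            rw [mul_rpow (by norm_num) (by positivity)]; gcongr
            rcases le_total |y j| |z 0 j| with h | h
            · rw [max_eq_right h]; exact le_add_of_nonneg_left (by positivity)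
            · rw [max_eq_left h]; exact le_add_of_nonneg_right (by positivity)
    · have := (le_abs_self _).trans (hN n hn (e.symm q))
      simp only [Pi.sub_apply, Equiv.apply_symm_apply] at this
      linarith

end Pool.Agent.Results.MP_55c50e_an.NotComplete
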